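import Pool.Agent.Helper77.SO.St

/-! # Project SO (MP_7a9ddc_co), module XF: there is a good corner -/

set_option autoImplicit false

namespace Pool.Agent.Helper14.SO.XF

open Equiv Equiv.Perm Pool.Agent.Helper35.PM Pool.Agent.Helper77.HY Pool.Agent.Helper77.OF4
open Pool.Agent.Helper77.SO

theorem mp_eq {D : Type} [Finite D] (f : Perm D) (d : D) :
    Function.minimalPeriod f d = ({e | f.SameCycle d e} : Set D).ncard := by
  classical
  have : Fintype D := Fintype.ofFinite D
  have h1 : Function.minimalPeriod (f • ·) d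
      = Nat.card (MulAction.orbit (Subgroup.zpowers f) d) := by
    have : Fintype (MulAction.orbit (Subgroup.zpowers f) d) := Fintype.ofFinite _
    rw [MulAction.minimalPeriod_eq_card, Nat.card_eq_fintype_card]
  have h2 : (MulAction.orbit (Subgroup.zpowers f) d) = {e | f.SameCycle d e} := by
    ext e
    constructor
    · rintro ⟨⟨g, hg⟩, rfl⟩
      obtain ⟨k, rfl⟩ := Subgroup.mem_zpowers_iff.1 hg
      exact ⟨k, rfl⟩
    · rintro ⟨k, hk⟩
      exact ⟨⟨f ^ k, Subgroup.mem_zpowers_iff.2 ⟨k, rfl⟩⟩, hk⟩
  rw [h2, Nat.card_coe_set_eq] at h1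
  exact h1

theorem mem_per {D : Type} [Finite D] (f : Perm D) (d : D) : d ∈ Function.periodicPts f :=
  f.injective.mem_periodicPts d

theorem main (hPar : StPar) (hCs : StCs) (hIm : StIm) : StXf := by
  classical
  intro V D _ M L d0 hL4 hLe hHC hConn hOG hn2 hnL
  set n := Function.minimalPeriod M.φ d0 with hn
  have hn0 : 0 < n := Function.minimalPeriod_pos_of_mem_periodicPts (mem_per M.φ d0)
  have hn1 : n ≠ 1 := by
    intro h1
    have h2 : Function.IsFixedPt M.φ d0 := Function.minimalPeriod_eq_one_iff_isFixedPt.1 h1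
    apply hOG.1 d0
    rw [← t_φ, h2]
  have hn3 : 3 ≤ n := by omega
  have key : Even n ∨ L + 2 ≤ n := by
    rcases Nat.even_or_odd n with he | ho
    · exact Or.inl he
    · right
      set p : D → ZMod 2 := fun d => if M.φ.SameCycle d0 d then 1 else 0 with hp
      have hFC : FC M p := by
        intro d
        simp only [hp, sameCycle_apply_right]
      obtain ⟨k, hk, hk2, hk3⟩ := hPar V D M p hFC
      have hset : {d | p d = 1} = {e | M.φ.SameCycle d0 e} := by
        ext d
        simp only [hp, Set.mem_ofPred_eq]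
        by_cases h : M.φ.SameCycle d0 d
        · simp [h]
        · simp [h]
      have hcard : {d | p d = 1}.ncard = n := by rw [hset, ← mp_eq]
      have hko : Odd k := hk2.2 (by rw [hcard]; exact ho)
      have hc := hHC p hFC (hk3 hko)
      have hle : cut M p ≤ 2 * n := by
        have hsub : {d | p (M.ι d) ≠ p d} ⊆ {d | p d = 1} ∪ M.ι '' {d | p d = 1} := by
          intro d hd
          by_cases h : p d = 1
          · exact Or.inl h
          · right
            refine ⟨M.ι d, ?_, M.inv d⟩
            have h0 : p d = 0 := by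
              simp only [hp] at h ⊢
              split_ifs at h ⊢ with h1
              · exact absurd rfl h
              · rfl
            have hd' : p (M.ι d) ≠ 0 := fun h2 => hd (h2.trans h0.symm)
            show p (M.ι d) = 1
            simp only [hp] at hd' ⊢
            split_ifs at hd' ⊢ with h1
            · rfl
            · exact absurd rfl hd'
        calc cut M p = {d | p (M.ι d) ≠ p d}.ncard := rfl
          _ ≤ ({d | p d = 1} ∪ M.ι '' {d | p d = 1}).ncard :=
            Set.ncard_le_ncard hsub (Set.toFinite _)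
          _ ≤ {d | p d = 1}.ncard + (M.ι '' {d | p d = 1}).ncard := Set.ncard_union_le _ _
          _ ≤ {d | p d = 1}.ncard + {d | p d = 1}.ncard :=
            Nat.add_le_add_left (Set.ncard_image_le (Set.toFinite _)) _
          _ = 2 * n := by rw [hcard]; ring
      obtain ⟨a, ha⟩ := hLe
      obtain ⟨b, hb⟩ := ho
      omega
  obtain ⟨i, hi⟩ := hCs V D M L d0 hLe hHC (by omega) key
  set d := (M.φ ^ i) d0 with hd
  have hper : Function.minimalPeriod M.φ d = n := by
    rw [hd, ← Equiv.Perm.iterate_eq_pow]
    exact Function.minimalPeriod_apply_iterate (mem_per M.φ d0) i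
  have hdd : M.φ (M.φ d) ≠ d := by
    intro h
    have h2 : Function.IsPeriodicPt M.φ 2 d := h
    have h3 := h2.minimalPeriod_le (by norm_num)
    omega
  by_cases ht : M.t d = M.t (M.φ (M.φ d))
  · obtain ⟨h1, h2⟩ := hIm V D M L d hL4 hHC hConn hOG ht.symm hdd
    exact ⟨M.φ d, h1, fun h => hi (h2 h)⟩
  · exact ⟨d, ht, hi⟩

end Pool.Agent.Helper14.SO.XF
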